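import Pool.Agent.Lib_helper74.CoSoberMad
import Pool.Agent.Lib_helper74.CoSoberTop

/-!
The product of two co-sober spaces need not be co-sober.
-/

namespace Pool.Agent.Results.MP_8d849c_gt.TwoFactors

open Set Pool.Agent.Lib_helper74.CoSoberDefs Pool.Agent.Lib_helper74.CoSoberTop
  Pool.Agent.Lib_helper74.CoSoberMad

/-- The system of sequences exists. -/
lemma exists_sys : ∃ (Y : Set ℕ) (ι : Type) (_ : Sys Y ι), Y.Infinite := by
  classical
  obtain ⟨𝒜, h⟩ := exists_MAD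
  obtain ⟨Y, ℬ, hY, hℬ, hdis, hEV⟩ := exists_partition h
  have hYinf : Y.Infinite := hY.infinite
  have : Nonempty Y := hYinf.nonempty.to_subtype
  obtain ⟨d, hd⟩ := exists_surjective_nat Y
  let lim : 𝒜 → Y := fun i => if hk : ∃ k, (i : Set ℕ) ∈ ℬ k then d hk.choose else d 0
  have hlim : ∀ (i : 𝒜) (k : ℕ), (i : Set ℕ) ∈ ℬ k → lim i = d k := by
    intro i k hik
    have hk : ∃ k, (i : Set ℕ) ∈ ℬ k := ⟨k, hik⟩
    have h1 : lim i = d hk.choose := dif_pos hk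
    have h2 : hk.choose = k := by
      rcases lt_trichotomy hk.choose k with h3 | h3 | h3
      · exact absurd hik (Set.disjoint_left.1 (hdis _ _ h3) hk.choose_spec)
      · exact h3
      · exact absurd hk.choose_spec (Set.disjoint_left.1 (hdis _ _ h3) hik)
    rw [h1, h2]
  refine ⟨Y, 𝒜, ⟨fun i => Subtype.val ⁻¹' (i : Set ℕ), lim, ?_, ?_, ?_⟩, hYinf⟩
  · intro i j hij
    have h1 : ((i : Set ℕ) ∩ j).Finite := h.ad _ i.2 _ j.2 (fun hh => hij (Subtype.ext hh))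
    exact Set.Finite.preimage (f := (Subtype.val : Y → ℕ)) Subtype.val_injective.injOn h1
  · intro f
    have h1 := hY ((fun i : 𝒜 => (i : Set ℕ)) '' (f : Set 𝒜))
      (by rintro _ ⟨i, -, rfl⟩; exact i.2) (f.finite_toSet.image _)
    have h2 : ((Subtype.val : Y → ℕ) ⁻¹' (Y \ ⋃₀ ((fun i : 𝒜 => (i : Set ℕ)) '' (f : Set 𝒜)))
      ).Infinite := h1.preimage (by
        rintro x ⟨hx, -⟩
        exact ⟨⟨x, hx⟩, rfl⟩)
    refine h2.mono ?_
    rintro x ⟨-, hx⟩
    refine ⟨trivial, ?_⟩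
    simp only [mem_iUnion, not_exists]
    intro i hi hxi
    exact hx ⟨i, ⟨i, hi, rfl⟩, hxi⟩
  · intro S hS x
    have hS' : Pos 𝒜 (Subtype.val '' S) := by
      intro f hf hf'
      have hfin : {i : 𝒜 | (i : Set ℕ) ∈ f}.Finite := hf'.preimage Subtype.val_injective.injOn
      have h1 := (hS hfin.toFinset).image (f := (Subtype.val : Y → ℕ))
        Subtype.val_injective.injOn
      refine h1.mono ?_
      rintro _ ⟨y, ⟨hy, hy2⟩, rfl⟩
      refine ⟨⟨y, hy, rfl⟩, ?_⟩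
      rintro ⟨A, hA, hyA⟩
      apply hy2
      simp only [mem_iUnion]
      exact ⟨⟨A, hf hA⟩, by simpa using hA, hyA⟩
    obtain ⟨k, rfl⟩ := hd x
    obtain ⟨A, hA, hAS⟩ := hEV k _ hS' (by rintro _ ⟨y, -, rfl⟩; exact y.2)
    refine ⟨⟨A, hℬ k hA⟩, hlim _ k hA, ?_⟩
    have h2 : ((Subtype.val : Y → ℕ) ⁻¹' (A ∩ Subtype.val '' S)).Infinite := hAS.preimage (by
        rintro _ ⟨-, y, -, rfl⟩
        exact ⟨y, rfl⟩)
    refine h2.mono ?_
    rintro y ⟨hyA, y', hy', hyy⟩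
    have : y' = y := Subtype.val_injective hyy
    subst this
    exact ⟨hyA, hy'⟩

/-- There are two countable compact `T1` co-sober spaces whose product is not co-sober. -/
theorem result : ∃ (X : Fin 2 → Type) (t : ∀ i, TopologicalSpace (X i)),
    (∀ i, Countable (X i) ∧ @T1Space (X i) (t i) ∧ @CompactSpace (X i) (t i) ∧
      @CoSober (X i) (t i)) ∧
    ¬ @CoSober (∀ i, X i) (@Pi.topologicalSpace (Fin 2) X t) := by
  obtain ⟨Y, ι, s, hY⟩ := exists_sys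
  obtain ⟨a, ha, b, hb, hab⟩ := hY.nontrivial
  have hab' : (⟨a, ha⟩ : Y) ≠ ⟨b, hb⟩ := fun h => hab (congrArg Subtype.val h)
  refine ⟨fun _ => Y, fun i => s.topAt (if i = 0 then ⟨a, ha⟩ else ⟨b, hb⟩), ?_, ?_⟩
  · intro i
    refine ⟨inferInstance, s.topAt_t1 _, ?_, s.topAt_coSober _⟩
    exact @CompactSpace.mk _ (s.topAt _) (s.topAt_compact_of_mem _ univ (mem_univ _))
  · exact s.not_coSober ⟨a, ha⟩ ⟨b, hb⟩ hab' _ (by simp) (by simp)

end Pool.Agent.Results.MP_8d849c_gt.TwoFactors
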